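import Pool.Agent.H88.LS.Prop
import Pool.Agent.H35.LS.S
import Pool.Agent.H65.LS.N
import Pool.Agent.H70.LS.V

/-!
The prime counting recursion S(n+1) = S(n) + π(n+1) - π(S(n)), S(0) = 0: there is a constant
c < 1 such that n - S(n) is at most c log n for a positive proportion of the integers n.
-/

namespace Pool.Agent.Results.MP_a6ebc6_nt.BelowOne

/-- π(m), the number of the primes p with p at most m, for an integer m. -/
def primePi (m : ℤ) : ℤ := (Nat.primeCounting m.toNat : ℤ)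

/-- The sequence of the problem: S(0) = 0 and S(n+1) = S(n) + π(n+1) - π(S(n)). -/
def S : ℕ → ℤ
  | 0 => 0
  | (n + 1) => S n + primePi ((n : ℤ) + 1) - primePi (S n)

theorem S_eq (n : ℕ) : S n = (Pool.Agent.H88.LS.s n : ℤ) := by
  induction n with
  | zero => rfl
  | succ n ih =>
    have h1 : S (n + 1) = S n + primePi ((n : ℤ) + 1) - primePi (S n) := rfl
    have h2 := Pool.Agent.H88.LS.s_succ n
    have h3 := Pool.Agent.H88.LS.s_le n
    have h4 := Pool.Agent.H88.LS.card_pw (Pool.Agent.H88.LS.s n) (n + 1) (by omega)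
    have h5 : Nat.primeCounting (Pool.Agent.H88.LS.s n) ≤ Nat.primeCounting (n + 1) :=
      Nat.monotone_primeCounting (by omega)
    have h6 : ((n : ℤ) + 1).toNat = n + 1 := by omega
    have h7 : ((Pool.Agent.H88.LS.s n : ℤ)).toNat = Pool.Agent.H88.LS.s n := Int.toNat_natCast _
    rw [h1, ih]
    unfold primePi
    rw [h6, h7, h2, h4]
    omega

/-- MAIN THEOREM. There are real numbers c < 1 and α > 0 such that, for every large x, at least
α x of the integers n in [1, x] satisfy n - S(n) ≤ c log n. -/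
theorem result :
    ∃ c : ℝ, c < 1 ∧ ∃ α : ℝ, 0 < α ∧ ∃ x₀ : ℕ, ∀ x : ℕ, x₀ ≤ x →
      α * x ≤ ({n : ℕ | 1 ≤ n ∧ n ≤ x ∧ (n : ℝ) - (S n : ℝ) ≤ c * Real.log n}.ncard : ℝ) := by
  classical
  obtain ⟨c, hc, α, hα, x₀, hx₀⟩ := Pool.Agent.H88.LS.density_of Pool.Agent.H65.LS.cnt
    Pool.Agent.H65.LS.two (Pool.Agent.H35.LS.ssum Pool.Agent.H88.LS.sbase Pool.Agent.H65.LS.two)
    Pool.Agent.H70.LS.sv
  refine ⟨c, hc, α, hα, x₀, fun x hx => ?_⟩
  have h1 := hx₀ x hx
  have h2 : {n : ℕ | 1 ≤ n ∧ n ≤ x ∧ (n : ℝ) - (S n : ℝ) ≤ c * Real.log n} =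
      (((Finset.Icc 1 x).filter fun n : ℕ =>
        (n : ℝ) - Pool.Agent.H88.LS.s n ≤ c * Real.log n : Finset ℕ) : Set ℕ) := by
    ext n
    rw [Set.mem_ofPred_eq, Finset.mem_coe, Finset.mem_filter, Finset.mem_Icc, S_eq]
    rw [Int.cast_natCast]
    tauto
  rw [h2, Set.ncard_coe_finset]
  convert h1

end Pool.Agent.Results.MP_a6ebc6_nt.BelowOne
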